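import Pool.Agent.W353.NF.Burn
import Pool.Agent.W353.TP.Tensor

/-! The mean value of the product of two fixed point counts. -/

set_option autoImplicit false

namespace Pool.Agent.K3h18.FB

open Filter Topology NumberField IsDedekindDomain Pool.Agent.W401.Cheb
open Pool.Agent.W353.NF (act act_apply act_trans fixn fixn_conj)
open Pool.Agent.W353.TP (Fac facField facFinK facNF artinK)
open Pool.Agent.W353.L1 (avR)
open scoped TensorProduct

/-- Burnside's lemma with a description of the orbits -/
theorem burnside' {G Y Z : Type*} [Group G] [Finite G] [Finite Y]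
    (a : G →* Equiv.Perm Y) (Ψ : Y → Z) (hs : Function.Surjective Ψ)
    (hΨ : ∀ x y, Ψ x = Ψ y ↔ ∃ g, a g x = y) :
    ∑ᶠ g : G, ((Nat.card {y // a g y = y} : ℕ) : ℝ) = Nat.card Z * Nat.card G := by
  classical
  let _ : Fintype G := Fintype.ofFinite G
  let _ : Fintype Y := Fintype.ofFinite Y
  let _ : MulAction G Y := MulAction.compHom Y a
  have hsm : ∀ (g : G) (y : Y), g • y = a g y := fun g y => rfl
  let _ : Fintype (Quotient (MulAction.orbitRel G Y)) := Fintype.ofFinite _
  have h1 := MulAction.sum_card_fixedBy_eq_card_orbits_mul_card_group G Y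
  have hor : ∀ x y : Y, (MulAction.orbitRel G Y) x y ↔ Ψ x = Ψ y := by
    intro x y
    rw [MulAction.orbitRel_apply, MulAction.mem_orbit_iff]
    constructor
    · rintro ⟨g, hg⟩
      exact ((hΨ y x).2 ⟨g, by rw [← hsm]; exact hg⟩).symm
    · intro h
      obtain ⟨g, hg⟩ := (hΨ y x).1 h.symm
      exact ⟨g, by rw [hsm]; exact hg⟩
  have h2 : Nat.card (Quotient (MulAction.orbitRel G Y)) = Nat.card Z := by
    refine Nat.card_eq_of_bijective (Quotient.lift Ψ fun x y hxy => (hor x y).1 hxy) ⟨?_, ?_⟩
    · intro x y hxy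
      induction x using Quotient.inductionOn with
      | h x =>
        induction y using Quotient.inductionOn with
        | h y => exact Quotient.sound ((hor x y).2 hxy)
    · intro z
      obtain ⟨y, rfl⟩ := hs z
      exact ⟨Quotient.mk _ y, rfl⟩
  rw [Nat.card_eq_fintype_card] at h2
  rw [finsum_eq_sum_of_fintype, Nat.card_eq_fintype_card (α := G), ← h2, ← Nat.cast_mul, ← h1,
    Nat.cast_sum]
  refine Finset.sum_congr rfl fun g _ => ?_
  rw [Nat.card_eq_fintype_card]
  congr 1

section
variable (K F F' : Type) [Field K] [NumberField K] [Field F] [NumberField F] [Algebra K F]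
  [Field F'] [NumberField F'] [Algebra K F']

/-- the kernel of the homomorphism of the tensor product given by a pair of embeddings -/
noncomputable def kerPair (x : (F →ₐ[K] AlgebraicClosure K) × (F' →ₐ[K] AlgebraicClosure K)) :
    MaximalSpectrum (F ⊗[K] F') :=
  ⟨RingHom.ker (Algebra.TensorProduct.productMap x.1 x.2), by
    have h1 : (RingHom.ker (Algebra.TensorProduct.productMap x.1 x.2)).IsPrime :=
      RingHom.ker_isPrime _
    exact IsArtinianRing.isMaximal_of_isPrime _⟩

theorem kerPair_surj : Function.Surjective (kerPair K F F') := by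
  intro m
  have halg : Algebra.IsAlgebraic K (Fac K F F' m) := inferInstance
  let g : Fac K F F' m →ₐ[K] AlgebraicClosure K := IsAlgClosed.lift
  let f : F ⊗[K] F' →ₐ[K] AlgebraicClosure K := g.comp (Ideal.Quotient.mkₐ K m.asIdeal)
  refine ⟨(f.comp Algebra.TensorProduct.includeLeft, f.comp Algebra.TensorProduct.includeRight),
    ?_⟩
  have hf : Algebra.TensorProduct.productMap (f.comp Algebra.TensorProduct.includeLeft)
      (f.comp Algebra.TensorProduct.includeRight) = f := by
    refine Algebra.TensorProduct.ext' fun a b => ?_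
    rw [Algebra.TensorProduct.productMap_apply_tmul]
    change f (a ⊗ₜ 1) * f (1 ⊗ₜ b) = f (a ⊗ₜ b)
    rw [← map_mul, Algebra.TensorProduct.tmul_mul_tmul, mul_one, one_mul]
  refine MaximalSpectrum.ext ?_
  change RingHom.ker (Algebra.TensorProduct.productMap (f.comp Algebra.TensorProduct.includeLeft)
      (f.comp Algebra.TensorProduct.includeRight)) = m.asIdeal
  rw [hf]
  ext z
  rw [RingHom.mem_ker]
  change g (Ideal.Quotient.mk m.asIdeal z) = 0 ↔ _
  rw [map_eq_zero_iff g (RingHom.injective (g : Fac K F F' m →+* AlgebraicClosure K)),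
    Ideal.Quotient.eq_zero_iff_mem]

theorem kerPair_iff (x y : (F →ₐ[K] AlgebraicClosure K) × (F' →ₐ[K] AlgebraicClosure K)) :
    kerPair K F F' x = kerPair K F F' y ↔
      ∃ σ : GK K, (act K F σ x.1, act K F' σ x.2) = y := by
  constructor
  · intro h
    set m := kerPair K F F' x with hm
    have hx : ∀ z ∈ m.asIdeal, Algebra.TensorProduct.productMap x.1 x.2 z = 0 := fun z hz => hz
    have hy : ∀ z ∈ m.asIdeal, Algebra.TensorProduct.productMap y.1 y.2 z = 0 := fun z hz => by
      rw [h] at hz
      exact hz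
    let gx : Fac K F F' m →ₐ[K] AlgebraicClosure K :=
      Ideal.Quotient.liftₐ m.asIdeal (Algebra.TensorProduct.productMap x.1 x.2) hx
    let gy : Fac K F F' m →ₐ[K] AlgebraicClosure K :=
      Ideal.Quotient.liftₐ m.asIdeal (Algebra.TensorProduct.productMap y.1 y.2) hy
    obtain ⟨σ, hσ⟩ := act_trans K (Fac K F F' m) gx gy
    have h1 : ∀ z : F ⊗[K] F', σ (Algebra.TensorProduct.productMap x.1 x.2 z) =
        Algebra.TensorProduct.productMap y.1 y.2 z := fun z =>
      DFunLike.congr_fun hσ (Ideal.Quotient.mk m.asIdeal z)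
    refine ⟨σ, Prod.ext (AlgHom.ext fun z => ?_) (AlgHom.ext fun z => ?_)⟩
    · have h2 := h1 (z ⊗ₜ 1)
      rw [Algebra.TensorProduct.productMap_apply_tmul,
        Algebra.TensorProduct.productMap_apply_tmul, map_one, map_one, mul_one, mul_one] at h2
      exact h2
    · have h2 := h1 (1 ⊗ₜ z)
      rw [Algebra.TensorProduct.productMap_apply_tmul,
        Algebra.TensorProduct.productMap_apply_tmul, map_one, map_one, one_mul, one_mul] at h2
      exact h2
  · rintro ⟨σ, rfl⟩
    refine MaximalSpectrum.ext ?_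
    change RingHom.ker (Algebra.TensorProduct.productMap x.1 x.2) =
      RingHom.ker (Algebra.TensorProduct.productMap (act K F σ x.1) (act K F' σ x.2))
    have h1 : ∀ z : F ⊗[K] F', Algebra.TensorProduct.productMap (act K F σ x.1)
        (act K F' σ x.2) z = σ (Algebra.TensorProduct.productMap x.1 x.2 z) := by
      intro z
      have e : Algebra.TensorProduct.productMap (act K F σ x.1) (act K F' σ x.2) =
          (σ : AlgebraicClosure K →ₐ[K] AlgebraicClosure K).comp
            (Algebra.TensorProduct.productMap x.1 x.2) := by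
        refine Algebra.TensorProduct.ext' fun a b => ?_
        rw [Algebra.TensorProduct.productMap_apply_tmul, AlgHom.comp_apply,
          Algebra.TensorProduct.productMap_apply_tmul, map_mul]
        rfl
      rw [e]
      rfl
    ext z
    rw [RingHom.mem_ker, RingHom.mem_ker, h1]
    exact (map_eq_zero_iff σ σ.injective).symm

/-- the action on the pairs of embeddings -/
noncomputable def act2 : GK K →* Equiv.Perm
    ((F →ₐ[K] AlgebraicClosure K) × (F' →ₐ[K] AlgebraicClosure K)) where
  toFun σ := (act K F σ).prodCongr (act K F' σ)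
  map_one' := by
    rw [map_one, map_one]
    rfl
  map_mul' a b := by
    rw [map_mul, map_mul]
    rfl

theorem card_fix2 (σ : GK K) :
    (Nat.card {x // act2 K F F' σ x = x} : ℝ) = (fixn K F σ : ℝ) * fixn K F' σ := by
  rw [← Nat.cast_mul]
  congr 1
  unfold fixn
  rw [← Nat.card_prod]
  exact Nat.card_congr
    { toFun := fun x => (⟨x.1.1, congrArg Prod.fst x.2⟩, ⟨x.1.2, congrArg Prod.snd x.2⟩)
      invFun := fun x => ⟨(x.1.1, x.2.1), Prod.ext x.1.2 x.2.2⟩
      left_inv := fun x => rfl
      right_inv := fun x => rfl }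

/-- **The mean value of the product of the fixed point counts** is the number of the simple factors
of the tensor product. -/
theorem mean_fix2 (U : Subgroup (GK K)) [U.Normal] [Finite (GK K ⧸ U)]
    (hF : ∀ u ∈ U, act K F u = 1) (hF' : ∀ u ∈ U, act K F' u = 1) :
    avR U (fun q => (fixn K F q.out : ℝ) * fixn K F' q.out) =
      Nat.card (MaximalSpectrum (F ⊗[K] F')) := by
  classical
  have hU : ∀ u ∈ U, act2 K F F' u = 1 := by
    intro u hu
    change (act K F u).prodCongr (act K F' u) = 1
    rw [hF u hu, hF' u hu]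
    rfl
  let a : GK K ⧸ U →* Equiv.Perm
      ((F →ₐ[K] AlgebraicClosure K) × (F' →ₐ[K] AlgebraicClosure K)) :=
    QuotientGroup.lift U (act2 K F F') hU
  have ha : ∀ g : GK K, a (QuotientGroup.mk g) = act2 K F F' g := fun g => rfl
  have h1 := burnside' a (kerPair K F F') (kerPair_surj K F F') (fun x y => by
    rw [kerPair_iff]
    constructor
    · rintro ⟨σ, hσ⟩
      exact ⟨QuotientGroup.mk σ, hσ⟩
    · rintro ⟨g, hg⟩
      obtain ⟨σ, rfl⟩ := QuotientGroup.mk_surjective g
      exact ⟨σ, hg⟩)
  unfold avR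
  have e : ∀ q : GK K ⧸ U, (fixn K F q.out : ℝ) * fixn K F' q.out =
      ((Nat.card {y // a q y = y} : ℕ) : ℝ) := by
    intro q
    rw [← card_fix2, ← ha, QuotientGroup.out_eq']
  rw [finsum_congr e, h1]
  have h0 : (Nat.card (GK K ⧸ U) : ℝ) ≠ 0 := by exact_mod_cast Nat.card_pos.ne'
  field_simp

/-- the mean value of the fixed point count -/
theorem mean_fix1 (U : Subgroup (GK K)) [U.Normal] [Finite (GK K ⧸ U)]
    (hF : ∀ u ∈ U, act K F u = 1) : avR U (fun q => (fixn K F q.out : ℝ)) = 1 := by
  classical
  let a : GK K ⧸ U →* Equiv.Perm (F →ₐ[K] AlgebraicClosure K) :=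
    QuotientGroup.lift U (act K F) hF
  have ha : ∀ g : GK K, a (QuotientGroup.mk g) = act K F g := fun g => rfl
  have h1 := Pool.Agent.W353.NF.burnside a fun x y => by
    obtain ⟨σ, hσ⟩ := act_trans K F x y
    exact ⟨QuotientGroup.mk σ, hσ⟩
  unfold avR
  have e : ∀ q : GK K ⧸ U, (fixn K F q.out : ℝ) = ((Nat.card {y // a q y = y} : ℕ) : ℝ) := by
    intro q
    unfold fixn
    rw [← ha, QuotientGroup.out_eq']
  rw [finsum_congr e, h1]
  have h0 : (Nat.card (GK K ⧸ U) : ℝ) ≠ 0 := by exact_mod_cast Nat.card_pos.ne'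
  field_simp

end

section
variable {K : Type} [Field K] [NumberField K]

/-- the embeddings of a subfield of a Galois extension -/
theorem act_one_of_le {U : Subgroup (GK K)} [U.Normal]
    (F : IntermediateField K (AlgebraicClosure K)) [NumberField F] (h : U ≤ F.fixingSubgroup) :
    ∀ u ∈ U, act K F u = 1 := by
  intro u hu
  refine Equiv.ext fun i => AlgHom.ext fun x => ?_
  obtain ⟨g, rfl⟩ := act_trans K F F.val i
  have h1 : g⁻¹ * u * g ∈ U := by
    have := (inferInstance : U.Normal).conj_mem u hu g⁻¹
    rwa [inv_inv] at this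
  have h2 := (IntermediateField.mem_fixingSubgroup_iff F _).1 (h h1) (x : AlgebraicClosure K) x.2
  have e : u * g = g * (g⁻¹ * u * g) := by group
  calc u (g (x : AlgebraicClosure K)) = (u * g) (x : AlgebraicClosure K) := rfl
    _ = (g * (g⁻¹ * u * g)) (x : AlgebraicClosure K) := by rw [← e]
    _ = g ((g⁻¹ * u * g) (x : AlgebraicClosure K)) := rfl
    _ = g (x : AlgebraicClosure K) := by rw [h2]

end

end Pool.Agent.K3h18.FB
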