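import Pool.Agent.W353.FB.Defs

/-!
# Averages over all number fields: the laws at a finite height

`P` gives a real number for every finite field `κ` with a homomorphism `𝓞_K → κ`, for example
`-𝔄*` for a fibration (`Pool.Agent.W353.FB.nagaoValue`), and so values at the primes of all number
fields `F ⊇ K`.  `W` is a part of the values (`Pool.Agent.W353.FB.IsPartOf`), given by `N` numbers of
absolute value at most `1`, and `s = N - dim W`.  All laws are for the averages
`T⁻¹ ∑_{v ∉ R, q_v ≤ T} b_v log q_v`, for all large `T`, without passing to subsequences.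
-/

set_option autoImplicit false

namespace Pool.Agent.K3h18.FB

open NumberField IsDedekindDomain Filter Topology IntermediateField
open Pool.Agent.W353.TD (rank)
open Pool.Agent.W353.AT (twistRank)
open Pool.Agent.W353.EF (perm derangements meanAbs)
open Pool.Agent.W353.FB
open scoped TensorProduct

section
variable {K : Type} [Field K]

/-- The number of the embeddings over `K` of `F` into the algebraic closure of `K` that are fixed
by `σ`. -/
noncomputable def fixed (F : Type) [Field F] [Algebra K F] (σ : Gal(AlgebraicClosure K/K)) : ℕ :=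
  Nat.card {i : F →ₐ[K] AlgebraicClosure K // perm K F σ i = i}

/-- The mean value over the finite group `G / U` of a function on `G = Gal(K̄/K)` that is constant on
the cosets of `U`. -/
noncomputable def mean (U : Subgroup Gal(AlgebraicClosure K/K))
    (f : Gal(AlgebraicClosure K/K) → ℝ) : ℝ :=
  (∑ᶠ q : Gal(AlgebraicClosure K/K) ⧸ U, f q.out) / Nat.card (Gal(AlgebraicClosure K/K) ⧸ U)

variable [NumberField K] {W : Type} [AddCommGroup W] [Module ℚ W]

/-- Let `s = N - dim W` and let `U` be an open normal subgroup of `Gal(K̄/K)`, that is `Gal(K̄/M)` for a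
finite Galois extension `M` of `K`.  There are class functions `θ_T` on `Gal(M/K)`, `T = 0, 1, 2, …`, with
values in `[-s, s]`, such that for `T → ∞`:
* for every field `F` between `K` and `M` the average over the primes of `F` is `rank ρ F` plus the
mean value of `θ_T · fix_F` over `Gal(M/K)`, up to `o(1)`, where `fix_F` counts the fixed embeddings
of `F`;
* for every complex representation `χ` of `Gal(M/K)` the average of the twisted values is
`twistRank ρ χ` plus the mean value of `θ_T · Re χ` over `Gal(M/K)`, up to `o(1)`. -/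
def ClassFunctionLaw (P : LocalValue K) (N : ℕ)
    (ρ : Representation ℚ Gal(AlgebraicClosure K/K) W) : Prop :=
  ∀ (U : Subgroup Gal(AlgebraicClosure K/K)) [U.Normal],
    IsOpen (U : Set Gal(AlgebraicClosure K/K)) →
    ∃ θ : ℕ → Gal(AlgebraicClosure K/K) → ℝ,
      (∀ T g, |θ T g| ≤ ((N - Module.finrank ℚ W : ℕ) : ℝ)) ∧
      (∀ T g, ∀ u ∈ U, θ T (g * u) = θ T g) ∧ (∀ T g h, θ T (h * g * h⁻¹) = θ T g) ∧
      (∀ (F : IntermediateField K (AlgebraicClosure K)) [NumberField F], U ≤ F.fixingSubgroup →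
        ∀ (R : Finset (HeightOneSpectrum (𝓞 F))) (b : HeightOneSpectrum (𝓞 F) → ℝ),
        IsSystem P R b → Tendsto (fun T => average R b T -
          (rank ρ F + mean U fun g => θ T g * fixed F g)) atTop (𝓝 0)) ∧
      ∀ (n : ℕ) (χ : Representation ℂ Gal(AlgebraicClosure K/K) (Fin n → ℂ)),
        (∀ u ∈ U, χ u = 1) → ∀ (R : Finset (HeightOneSpectrum (𝓞 K)))
        (b : HeightOneSpectrum (𝓞 K) → ℝ), IsTwistedSystem P χ R b →
        Tendsto (fun T => average R b T -
          (twistRank ρ χ + mean U fun g => θ T g * (χ.character g).re)) atTop (𝓝 0)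

/-- Let `s = N - dim W`, let `F_1, …, F_l` be number fields containing `K`, and let `x_k(T)` be the
average over the primes of `F_k` minus `rank ρ F_k`.  For all real `c_k`, `η > 0` and all large `T`,
`|∑ c_k x_k(T)| ≤ s · meanAbs + η`, where `meanAbs` is the mean value of `|∑ c_k fix_k|`, and
`(∑ c_k x_k(T))² ≤ s² ∑ c_k c_l r(k, l) + η`, where `r(k, l)` is the number of the simple factors of
`F_k ⊗ F_l` over `K`. -/
def AverageRelations (P : LocalValue K) (N : ℕ)
    (ρ : Representation ℚ Gal(AlgebraicClosure K/K) W) : Prop :=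
  ∀ (l : ℕ) (F : Fin l → IntermediateField K (AlgebraicClosure K)) [∀ k, NumberField (F k)]
    (c : Fin l → ℝ) (R : ∀ k, Finset (HeightOneSpectrum (𝓞 (F k))))
    (b : ∀ k, HeightOneSpectrum (𝓞 (F k)) → ℝ), (∀ k, IsSystem P (R k) (b k)) →
    ∀ η : ℝ, 0 < η → ∀ᶠ T : ℕ in atTop,
      |∑ k, c k * (average (R k) (b k) T - rank ρ (F k))| ≤
        ((N - Module.finrank ℚ W : ℕ) : ℝ) * meanAbs K (fun k => F k) c + η ∧
      (∑ k, c k * (average (R k) (b k) T - rank ρ (F k))) ^ 2 ≤
        ((N - Module.finrank ℚ W : ℕ) : ℝ) ^ 2 * ∑ k, ∑ k', c k * c k' *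
          (Nat.card (MaximalSpectrum (F k ⊗[K] F k')) : ℝ) + η

/-- Let `s = N - dim W`, and let `d_F(T)` be the average over `F` minus `rank ρ F`, minus the same
difference for `K`.
* `|d_F(T)| ≤ 2 s δ + η` for all large `T`, where `δ` is the proportion of the permutations without fixed
point in the Galois group of the normal closure of `F/K`, acting on the embeddings of `F`;
* `|d_F(T)| ≤ 2 s / [K(ζ_p) : K] + η` for all large `T`, for all primes `p` and all radical extensions
`F = K(α)` of degree `p`, `α ^ p ∈ K`;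
* let `F_1, …, F_l ≠ K` be such that `F_k ⊗_K F_l` is a field for `k ≠ l`, and let `r_k ≥ 2` be the number
of the simple factors of `F_k ⊗_K F_k`; then `∑ d_{F_k}(T)² / (r_k - 1) ≤ s² + η` for all large `T`. -/
def ComparisonWithBase (P : LocalValue K) (N : ℕ)
    (ρ : Representation ℚ Gal(AlgebraicClosure K/K) W) : Prop :=
  ∀ (R₀ : Finset (HeightOneSpectrum (𝓞 K))) (b₀ : HeightOneSpectrum (𝓞 K) → ℝ),
    IsSystem P R₀ b₀ → ∀ η : ℝ, 0 < η →
    (∀ (F : IntermediateField K (AlgebraicClosure K)) [NumberField F]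
      (R : Finset (HeightOneSpectrum (𝓞 F))) (b : HeightOneSpectrum (𝓞 F) → ℝ), IsSystem P R b →
      ∀ᶠ T : ℕ in atTop, |(average R b T - rank ρ F) - (average R₀ b₀ T - rank ρ ⊥)| ≤
        2 * ((N - Module.finrank ℚ W : ℕ) : ℝ) * derangements K F + η) ∧
    (∀ (p : ℕ) (ζ α : AlgebraicClosure K) (a : K), p.Prime → IsPrimitiveRoot ζ p →
      α ^ p = algebraMap K (AlgebraicClosure K) a → Module.finrank K K⟮α⟯ = p →
      ∀ [NumberField K⟮α⟯] (R : Finset (HeightOneSpectrum (𝓞 K⟮α⟯)))
      (b : HeightOneSpectrum (𝓞 K⟮α⟯) → ℝ), IsSystem P R b →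
      ∀ᶠ T : ℕ in atTop, |(average R b T - rank ρ K⟮α⟯) - (average R₀ b₀ T - rank ρ ⊥)| ≤
        2 * ((N - Module.finrank ℚ W : ℕ) : ℝ) / Module.finrank K K⟮ζ⟯ + η) ∧
    ∀ (l : ℕ) (F : Fin l → IntermediateField K (AlgebraicClosure K)) [∀ k, NumberField (F k)]
      (R : ∀ k, Finset (HeightOneSpectrum (𝓞 (F k)))) (b : ∀ k, HeightOneSpectrum (𝓞 (F k)) → ℝ),
      (∀ k, F k ≠ ⊥) →
      (∀ k k', k ≠ k' → Nat.card (MaximalSpectrum (F k ⊗[K] F k')) = 1) →
      (∀ k, IsSystem P (R k) (b k)) → ∀ᶠ T : ℕ in atTop,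
      ∑ k, ((average (R k) (b k) T - rank ρ (F k)) - (average R₀ b₀ T - rank ρ ⊥)) ^ 2 /
        ((Nat.card (MaximalSpectrum (F k ⊗[K] F k)) : ℝ) - 1) ≤
          ((N - Module.finrank ℚ W : ℕ) : ℝ) ^ 2 + η

end

end Pool.Agent.K3h18.FB
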