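import Pool.Agent.W353.FB.Final

/-! Mean values over the primes of a number field in terms of bounded class functions. -/

set_option autoImplicit false

namespace Pool.Agent.K3h18.FB

open Complex Filter Topology NumberField IsDedekindDomain
  Pool.Agent.W401.Cheb Pool.Agent.W540.BE Pool.Agent.W353.L1 Pool.Agent.W353.AT
  Pool.Agent.W353.SP Pool.Agent.W353.FB
open Pool.Agent.W353.NF (act fixn fixn_le fixn_conj fixn_mul_ker)
open Pool.Agent.W353.TD (ch rank)

section
variable {K : Type} [Field K] [NumberField K] {ι : Type} {l : Filter ι}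
  {E : ι → (HeightOneSpectrum (𝓞 K) → ℝ) → ℝ}

theorem mn_abs_le (h : Mn l E) {T g : HeightOneSpectrum (𝓞 K) → ℝ} {s : ℝ}
    (hT : ∀ v, |T v| ≤ s) (hg : Bd g) (hg0 : ∀ v, 0 ≤ g v) :
    ∀ᶠ i in l, |E i (fun v => T v * g v)| ≤ s * E i g := by
  have hTb : Bd T := ⟨s, hT⟩
  filter_upwards [h.mono (fun v => T v * g v) (fun v => s * g v) (hTb.mul hg)
      ((Bd.const s).mul hg) fun v => mul_le_mul_of_nonneg_right
        ((le_abs_self _).trans (hT v)) (hg0 v),
    h.mono (fun v => (-s) * g v) (fun v => T v * g v) ((Bd.const (-s)).mul hg) (hTb.mul hg)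
      fun v => mul_le_mul_of_nonneg_right (by
        have := (abs_le.1 (hT v)).1
        linarith) (hg0 v)] with i h1 h2
  rw [h.smul] at h1 h2
  rw [abs_le]
  constructor <;> linarith

theorem mn_zero (h : Mn l E) (i : ι) : E i (fun _ => 0) = 0 := by
  have h1 := h.smul 0 (fun _ => 0) i
  simp only [zero_mul] at h1
  exact h1

theorem mn_sum (h : Mn l E) {κ : Type*} (S : Finset κ) {f : κ → HeightOneSpectrum (𝓞 K) → ℝ}
    (hf : ∀ k ∈ S, Bd (f k)) : Bd (fun v => ∑ k ∈ S, f k v) ∧
      ∀ᶠ i in l, E i (fun v => ∑ k ∈ S, f k v) = ∑ k ∈ S, E i (f k) := by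
  classical
  induction S using Finset.induction_on with
  | empty =>
    refine ⟨⟨0, fun v => by simp⟩, Filter.Eventually.of_forall fun i => ?_⟩
    simp only [Finset.sum_empty]
    exact mn_zero h i
  | insert x s hx ih =>
    obtain ⟨h1, h2⟩ := ih fun k hk => hf k (Finset.mem_insert_of_mem hk)
    have h3 := hf x (Finset.mem_insert_self x s)
    have e : (fun v => ∑ k ∈ insert x s, f k v) = fun v => f x v + ∑ k ∈ s, f k v := by
      funext v
      rw [Finset.sum_insert hx]
    rw [e]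
    refine ⟨h3.add h1, ?_⟩
    filter_upwards [h2, h.add (f x) (fun v => ∑ k ∈ s, f k v) h3 h1] with i h4 h5
    rw [h5, h4, Finset.sum_insert hx]

/-- **Mean values against class functions are mean values over the finite group.** -/
theorem exists_law (h : Mn l E) (U : Subgroup (GK K)) [U.Normal] (hU : IsOpen (U : Set (GK K)))
    (σ : HeightOneSpectrum (𝓞 K) → GK K) (hσ : ∀ v, IsFrob v (σ v))
    {T : HeightOneSpectrum (𝓞 K) → ℝ} {s : ℝ} (hs : 0 ≤ s) (hT : ∀ v, |T v| ≤ s) :
    ∃ θ : ι → GK K ⧸ U → ℝ, (∀ i q, |θ i q| ≤ s) ∧ (∀ i q g, θ i (g * q * g⁻¹) = θ i q) ∧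
      ∀ f : GK K ⧸ U → ℝ, (∀ q g, f (g * q * g⁻¹) = f q) →
        Tendsto (fun i => E i (fun v => T v * f (QuotientGroup.mk (σ v))) -
          avR U (fun q => θ i q * f q)) l (𝓝 0) := by
  classical
  have hfin : Finite (GK K ⧸ U) := Subgroup.quotient_finite_of_isOpen U hU
  let _ : Fintype (GK K ⧸ U) := Fintype.ofFinite _
  set n : ℝ := (Nat.card (GK K ⧸ U) : ℝ) with hn
  have hn0 : 0 < n := by
    rw [hn]
    exact_mod_cast Nat.card_pos
  set ind : GK K ⧸ U → GK K ⧸ U → ℝ := fun q x => if IsConj q x then 1 else 0 with hind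
  set m : GK K ⧸ U → ℝ := fun q => ∑ x, ind q x with hm
  have hm0 : ∀ q, 0 < m q := by
    intro q
    refine lt_of_lt_of_le one_pos ?_
    have h1 : ind q q = 1 := if_pos (IsConj.refl q)
    rw [← h1]
    exact Finset.single_le_sum (f := fun x => ind q x) (fun x _ => by
      rw [hind]; simp only; split_ifs <;> norm_num) (Finset.mem_univ q)
  have hindc : ∀ q x g, ind q (g * x * g⁻¹) = ind q x := by
    intro q x g
    have h1 : IsConj x (g * x * g⁻¹) := isConj_iff.2 ⟨g, rfl⟩
    have h2 : IsConj q (g * x * g⁻¹) ↔ IsConj q x :=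
      ⟨fun h3 => h3.trans h1.symm, fun h3 => h3.trans h1⟩
    rw [hind]
    simp only [h2]
  have hindl : ∀ q x, IsConj q x → ind q = ind x := by
    intro q x hqx
    funext y
    have h2 : IsConj q y ↔ IsConj x y := ⟨fun h3 => hqx.symm.trans h3, fun h3 => hqx.trans h3⟩
    rw [hind]
    simp only [h2]
  have hav : ∀ ψ : GK K ⧸ U → ℝ, avR U ψ = n⁻¹ * ∑ q, ψ q := by
    intro ψ
    unfold avR
    rw [finsum_eq_sum_of_fintype]
  have hTb : Bd T := ⟨s, hT⟩
  have hib : ∀ q, Bd (K := K) fun v => ind q (QuotientGroup.mk (σ v)) := fun q =>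
    ⟨1, fun v => by
      rw [hind]
      simp only
      split_ifs <;> simp⟩
  have hi0 : ∀ q x, 0 ≤ ind q x := fun q x => by
    rw [hind]
    simp only
    split_ifs <;> norm_num
  -- the density of a class
  have hdens : ∀ q, Tendsto (fun i => E i fun v => ind q (QuotientGroup.mk (σ v))) l
      (𝓝 (n⁻¹ * m q)) := by
    intro q
    have h1 := h.cheb U hU (fun x => ((ind q x : ℝ) : ℂ)) (fun a g => by rw [hindc]) _
      (avC_ofReal U _) σ hσ
    rw [hav] at h1
    refine h1.congr fun i => ?_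
    congr 1
  set θ' : ι → GK K ⧸ U → ℝ := fun i q =>
    n / m q * E i (fun v => T v * ind q (QuotientGroup.mk (σ v))) with hθ'
  have hlim : ∀ q, Tendsto (fun i => θ' i q - cut s (θ' i q)) l (𝓝 0) := by
    intro q
    rw [Metric.tendsto_nhds]
    intro η hη
    have h1 : Tendsto (fun i => n / m q * (s * E i fun v => ind q (QuotientGroup.mk (σ v)))) l
        (𝓝 (n / m q * (s * (n⁻¹ * m q)))) := ((hdens q).const_mul s).const_mul _
    have e1 : n / m q * (s * (n⁻¹ * m q)) = s := by
      have := (hm0 q).ne'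
      field_simp
    rw [e1] at h1
    filter_upwards [mn_abs_le h hT (hib q) (fun v => hi0 q _),
      h1.eventually_lt_const (show s < s + η / 2 by linarith)] with i h2 h3
    have h4 : |θ' i q| ≤ s + η / 2 := by
      rw [hθ']
      simp only
      rw [abs_mul, abs_of_nonneg (div_nonneg hn0.le (hm0 q).le)]
      exact (mul_le_mul_of_nonneg_left h2 (div_nonneg hn0.le (hm0 q).le)).trans h3.le
    have h5 := cut_sub hs (by linarith : 0 ≤ η / 2) h4
    rw [Real.dist_eq, sub_zero]
    linarith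
  refine ⟨fun i q => cut s (θ' i q), fun i q => abs_cut hs _, fun i q g => ?_, fun f hf => ?_⟩
  · have h1 : IsConj (g * q * g⁻¹) q := (isConj_iff.2 ⟨g, rfl⟩ : IsConj q (g * q * g⁻¹)).symm
    have h2 := hindl _ _ h1
    have h3 : m (g * q * g⁻¹) = m q := by
      rw [hm]
      simp only [h2]
    rw [hθ']
    simp only [h2, h3]
  · -- the class function as a combination of indicator functions
    have hfx : ∀ x, f x = ∑ q, f q / m q * ind q x := by
      intro x
      have h1 : ∀ q, f q / m q * ind q x = f x / m x * ind x q := by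
        intro q
        by_cases hq : IsConj q x
        · have h2 : ind q = ind x := hindl q x hq
          have h3 : m q = m x := by
            rw [hm]
            simp only [h2]
          obtain ⟨c, hc⟩ := isConj_iff.1 hq
          have h4 : f q = f x := by rw [← hc, hf]
          have h5 : ind x x = ind x q := by
            rw [hind]
            simp only
            rw [if_pos (IsConj.refl x), if_pos hq.symm]
          rw [h2, h3, h4, h5]
        · have h2 : ind q x = 0 := if_neg hq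
          have h3 : ind x q = 0 := if_neg fun h4 => hq h4.symm
          rw [h2, h3, mul_zero, mul_zero]
      rw [Finset.sum_congr rfl fun q _ => h1 q, ← Finset.mul_sum]
      exact (div_mul_cancel₀ _ (hm0 x).ne').symm
    have h6 := (mn_sum h (Finset.univ : Finset (GK K ⧸ U))
      (f := fun q v => f q / m q * (T v * ind q (QuotientGroup.mk (σ v))))
      fun q _ => (Bd.const _).mul (hTb.mul (hib q))).2
    have h7 : Tendsto (fun i => n⁻¹ * ∑ q, (θ' i q - cut s (θ' i q)) * f q) l (𝓝 0) := by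
      have h8 := (tendsto_finsetSum (Finset.univ : Finset (GK K ⧸ U))
        fun q _ => (hlim q).mul_const (f q)).const_mul n⁻¹
      simpa using h8
    refine h7.congr' ?_
    filter_upwards [h6] with i hi
    have e1 : (fun v => T v * f (QuotientGroup.mk (σ v))) = fun v => ∑ q : GK K ⧸ U,
        f q / m q * (T v * ind q (QuotientGroup.mk (σ v))) := by
      funext v
      rw [hfx (QuotientGroup.mk (σ v)), Finset.mul_sum]
      exact Finset.sum_congr rfl fun q _ => by ring
    have e2 : ∑ q : GK K ⧸ U, E i (fun v => f q / m q * (T v * ind q (QuotientGroup.mk (σ v)))) =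
        n⁻¹ * ∑ q : GK K ⧸ U, θ' i q * f q := by
      rw [Finset.mul_sum]
      refine Finset.sum_congr rfl fun q _ => ?_
      rw [h.smul, hθ']
      simp only
      have := (hm0 q).ne'
      field_simp
    rw [e1, hi, hav, e2, ← mul_sub, ← Finset.sum_sub_distrib]
    congr 1
    exact Finset.sum_congr rfl fun q _ => by ring

/-- functions constant on the cosets -/
theorem out_eq {U : Subgroup (GK K)} {ψ : GK K → ℝ} (hψ : ∀ g, ∀ u ∈ U, ψ (g * u) = ψ g)
    (g : GK K) : ψ (QuotientGroup.mk g : GK K ⧸ U).out = ψ g := by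
  have h1 : (QuotientGroup.mk g : GK K ⧸ U) =
      QuotientGroup.mk (QuotientGroup.mk g : GK K ⧸ U).out := by
    rw [QuotientGroup.out_eq']
  rw [QuotientGroup.eq] at h1
  have h2 := hψ g _ h1
  rwa [mul_inv_cancel_left] at h2

variable {V : Type} [AddCommGroup V] [Module ℚ V] [FiniteDimensional ℚ V]
  {ρ : Representation ℚ (GK K) V}

/-- the complement of the algebraic part -/
theorem split_E (h : Mn l E) {t : HeightOneSpectrum (𝓞 K) → ℝ} (ht : Bd t) {s : ℝ} (hs0 : 0 ≤ s)
    (σ : HeightOneSpectrum (𝓞 K) → GK K)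
    (hs : ∀ η : ℝ, 0 < η → ∀ᶠ v in cofinite, |t v - ch ρ (σ v)⁻¹| ≤ s + η)
    {g : HeightOneSpectrum (𝓞 K) → ℝ} (hg : Bd g) {r : ℝ}
    (hr : Hs l E (fun v => ch ρ (σ v)⁻¹ * g v) r) :
    Tendsto (fun i => E i (fun v => t v * g v) -
      (r + E i (fun v => cut s (t v - ch ρ (σ v)⁻¹) * g v))) l (𝓝 0) := by
  set T : HeightOneSpectrum (𝓞 K) → ℝ := fun v => cut s (t v - ch ρ (σ v)⁻¹) with hTdef
  have hT : ∀ v, |T v| ≤ s := fun v => abs_cut hs0 _
  have hTg : Bd fun v => T v * g v := Bd.mul (f := T) (g := g) ⟨s, hT⟩ hg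
  have hψb : Bd fun v => t v * g v + ((-1) * (T v * g v) + (-1) * (ch ρ (σ v)⁻¹ * g v)) :=
    (ht.mul hg).add (((Bd.const (-1)).mul hTg).add ((Bd.const (-1)).mul hr.1))
  have hψ : Hs l E (fun v => t v * g v +
      ((-1) * (T v * g v) + (-1) * (ch ρ (σ v)⁻¹ * g v))) 0 := by
    refine hsSmall h hψb fun η hη => ?_
    obtain ⟨G, hG⟩ := hg
    have hG0 : 0 < |G| + 1 := by positivity
    filter_upwards [hs (η / (|G| + 1)) (by positivity)] with v hv
    have h6 := cut_sub hs0 (by positivity : 0 ≤ η / (|G| + 1)) hv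
    have e : t v * g v + ((-1) * (T v * g v) + (-1) * (ch ρ (σ v)⁻¹ * g v)) =
        ((t v - ch ρ (σ v)⁻¹) - cut s (t v - ch ρ (σ v)⁻¹)) * g v := by
      rw [hTdef]
      ring
    rw [e, abs_mul]
    calc _ ≤ η / (|G| + 1) * (|G| + 1) := by
          refine mul_le_mul h6 ?_ (abs_nonneg _) (by positivity)
          exact ((hG v).trans (le_abs_self G)).trans (by linarith)
      _ = η := div_mul_cancel₀ _ hG0.ne'
  have h1 := hψ.2.add (hr.2.sub (tendsto_const_nhds (x := r)))
  rw [sub_self, add_zero] at h1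
  refine h1.congr' ?_
  filter_upwards [h.add (fun v => t v * g v)
      (fun v => (-1) * (T v * g v) + (-1) * (ch ρ (σ v)⁻¹ * g v)) (ht.mul hg)
      (((Bd.const (-1)).mul hTg).add ((Bd.const (-1)).mul hr.1)),
    h.add (fun v => (-1) * (T v * g v)) (fun v => (-1) * (ch ρ (σ v)⁻¹ * g v))
      ((Bd.const (-1)).mul hTg) ((Bd.const (-1)).mul hr.1)] with i h2 h3
  rw [h2, h3, h.smul, h.smul]
  ring

/-- **The law of the mean values over all number fields and for all Artin representations.** -/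
theorem law (h : Mn l E) {t : HeightOneSpectrum (𝓞 K) → ℝ} (ht : Bd t)
    (hρ : ∃ U : Subgroup (GK K), IsOpen (U : Set (GK K)) ∧ ∀ u ∈ U, ρ u = 1) {s : ℝ} (hs0 : 0 ≤ s)
    (σ : HeightOneSpectrum (𝓞 K) → GK K) (hσ : ∀ v, IsFrob v (σ v))
    (hs : ∀ η : ℝ, 0 < η → ∀ᶠ v in cofinite, |t v - ch ρ (σ v)⁻¹| ≤ s + η)
    (U : Subgroup (GK K)) [U.Normal] (hU : IsOpen (U : Set (GK K))) :
    ∃ θ : ι → GK K ⧸ U → ℝ, (∀ i q, |θ i q| ≤ s) ∧ (∀ i q g, θ i (g * q * g⁻¹) = θ i q) ∧
      (∀ (F : IntermediateField K (AlgebraicClosure K)) [NumberField F],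
        (∀ u ∈ U, act K F u = 1) → Tendsto (fun i => E i (fun v => t v * fixn K F (σ v)) -
          (rank ρ F + avR U (fun q => θ i q * fixn K F q.out))) l (𝓝 0)) ∧
      ∀ x : MRep (GK K), (∀ u ∈ U, x.2 u = 1) →
        Tendsto (fun i => E i (fun v => t v * RR x.2 0 σ v) -
          (twistRank ρ x.2 + avR U (fun q => θ i q * (x.2.character q.out).re))) l (𝓝 0) := by
  classical
  have hfin : Finite (GK K ⧸ U) := Subgroup.quotient_finite_of_isOpen U hU
  obtain ⟨θ, h1, h2, h3⟩ := exists_law h U hU σ hσ (T := fun v => cut s (t v - ch ρ (σ v)⁻¹)) hs0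
    fun v => abs_cut hs0 _
  refine ⟨θ, h1, h2, fun F _ hF => ?_, fun x hx => ?_⟩
  · have h4 := split_E h ht hs0 σ hs (bd_fixn (F := F) σ) (h.fixMean ρ hρ F.val σ hσ)
    have hinv : ∀ g, ∀ u ∈ U, (fixn K F (g * u) : ℝ) = fixn K F g := fun g u hu => by
      rw [fixn_mul_ker _ _ _ _ (hF u hu)]
    have h5 := h3 (fun q => (fixn K F q.out : ℝ)) (fun q g => by
      obtain ⟨q, rfl⟩ := QuotientGroup.mk_surjective q
      obtain ⟨g, rfl⟩ := QuotientGroup.mk_surjective g
      rw [← QuotientGroup.mk_inv, ← QuotientGroup.mk_mul, ← QuotientGroup.mk_mul]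
      rw [out_eq (ψ := fun g => (fixn K F g : ℝ)) hinv, out_eq (ψ := fun g => (fixn K F g : ℝ)) hinv,
        fixn_conj])
    have h6 := h4.add h5
    rw [add_zero] at h6
    refine h6.congr fun i => ?_
    have hr : rank ρ F = Module.finrank ℚ (Pool.Agent.W353.TD.inv ρ F.val.fieldRange.fixingSubgroup) := by
      rw [Pool.Agent.W353.TD.inv_eq, IntermediateField.fieldRange_val]
      rfl
    have e1 : (fun v => cut s (t v - ch ρ (σ v)⁻¹) *
        (fixn K F (QuotientGroup.mk (σ v) : GK K ⧸ U).out : ℝ)) = fun v =>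
        cut s (t v - ch ρ (σ v)⁻¹) * (fixn K F (σ v) : ℝ) := by
      funext v
      rw [out_eq (ψ := fun g => (fixn K F g : ℝ)) hinv]
    rw [hr, e1]
    ring
  · have hx' : IsArtin x.2 := ⟨U, hU, hx⟩
    have h4 := split_E h ht hs0 σ hs (bd_RR hx' σ) (h.twMean ρ hρ x hx' σ hσ)
    have h5 := h3 (fun q => ((qrep U x.2 hx).character q⁻¹).re) (fun q g => by
      have h7 : (g * q * g⁻¹)⁻¹ = g * q⁻¹ * g⁻¹ := by group
      rw [h7, Representation.char_conj])
    have h6 := h4.add h5
    rw [add_zero] at h6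
    refine h6.congr fun i => ?_
    have e1 : (fun v => cut s (t v - ch ρ (σ v)⁻¹) *
        ((qrep U x.2 hx).character (QuotientGroup.mk (σ v) : GK K ⧸ U)⁻¹).re) = fun v =>
        cut s (t v - ch ρ (σ v)⁻¹) * RR x.2 0 σ v := by
      funext v
      congr 1
      rw [RR0]
      rfl
    have e2 : (fun q : GK K ⧸ U => θ i q * ((qrep U x.2 hx).character q⁻¹).re) =
        fun q => θ i q * (x.2.character q.out).re := by
      funext q
      congr 1
      rw [char_inv (qrep U x.2 hx) q, Complex.conj_re]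
      conv_lhs => rw [← QuotientGroup.out_eq' q]
      rfl
    rw [e1, e2]
    ring

end

end Pool.Agent.K3h18.FB
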