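import Pool.Agent.K3h18.FB.Defs
import Pool.Agent.K3h18.FB.Law
import Pool.Agent.K3h18.FB.Cnt
import Pool.Agent.W353.NF.Rad

/-! The laws of the averages over all number fields: proofs. -/

set_option autoImplicit false

namespace Pool.Agent.K3h18.FB

open Filter Topology NumberField IsDedekindDomain IntermediateField
  Pool.Agent.W401.Cheb Pool.Agent.W540.BE Pool.Agent.W353.L1 Pool.Agent.W353.AT
  Pool.Agent.W353.SP Pool.Agent.W353.FB
open Pool.Agent.H126V.Taub (LA)
open Pool.Agent.W353.NF (act fixn fixn_le fixn_conj fixn_mul_ker fixn_self ker_act_open avR_ker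
  mean_drg drg drg_rad)
open Pool.Agent.W353.TD (ch rank fixn_bot)
open Pool.Agent.W353.EF (perm derangements meanAbs)
open scoped TensorProduct

section
variable {K : Type} [Field K] [NumberField K]

section av
variable (U : Subgroup (GK K)) [Finite (GK K ⧸ U)]

theorem avR_sum {κ : Type*} (S : Finset κ) (f : κ → GK K ⧸ U → ℝ) :
    avR U (fun q => ∑ k ∈ S, f k q) = ∑ k ∈ S, avR U (f k) := by
  classical
  let _ : Fintype (GK K ⧸ U) := Fintype.ofFinite _
  unfold avR
  simp only [finsum_eq_sum_of_fintype]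
  rw [Finset.sum_comm, Finset.mul_sum]

theorem avR_mul (c : ℝ) (f : GK K ⧸ U → ℝ) : avR U (fun q => c * f q) = c * avR U f :=
  avR_const_mul U c f

theorem avR_sub (f g : GK K ⧸ U → ℝ) : avR U (fun q => f q - g q) = avR U f - avR U g := by
  classical
  let _ : Fintype (GK K ⧸ U) := Fintype.ofFinite _
  unfold avR
  simp only [finsum_eq_sum_of_fintype]
  rw [Finset.sum_sub_distrib, mul_sub]

theorem avR_add (f g : GK K ⧸ U → ℝ) : avR U (fun q => f q + g q) = avR U f + avR U g := by
  classical
  let _ : Fintype (GK K ⧸ U) := Fintype.ofFinite _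
  unfold avR
  simp only [finsum_eq_sum_of_fintype]
  rw [Finset.sum_add_distrib, mul_add]

theorem avR_one : avR U (fun _ => (1 : ℝ)) = 1 := by
  classical
  let _ : Fintype (GK K ⧸ U) := Fintype.ofFinite _
  unfold avR
  rw [finsum_eq_sum_of_fintype, Finset.sum_const, Finset.card_univ, nsmul_eq_mul, mul_one,
    Nat.card_eq_fintype_card]
  exact inv_mul_cancel₀ (by exact_mod_cast Fintype.card_ne_zero)

theorem avR_mono {f g : GK K ⧸ U → ℝ} (h : ∀ q, f q ≤ g q) : avR U f ≤ avR U g := by
  classical
  let _ : Fintype (GK K ⧸ U) := Fintype.ofFinite _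
  unfold avR
  simp only [finsum_eq_sum_of_fintype]
  exact mul_le_mul_of_nonneg_left (Finset.sum_le_sum fun q _ => h q) (by positivity)

/-- the mean value against a bounded function -/
theorem avR_abs_le {θ : GK K ⧸ U → ℝ} {s : ℝ} (hθ : ∀ q, |θ q| ≤ s) (g : GK K ⧸ U → ℝ) :
    |avR U (fun q => θ q * g q)| ≤ s * avR U (fun q => |g q|) := by
  have h : ∀ q, |θ q * g q| ≤ s * |g q| := fun q => by
    rw [abs_mul]
    exact mul_le_mul_of_nonneg_right (hθ q) (abs_nonneg _)
  rw [← avR_mul, abs_le]
  constructor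
  · have h1 : avR U (fun q => (-1) * (s * |g q|)) ≤ avR U (fun q => θ q * g q) :=
      avR_mono U fun q => by
        have := (abs_le.1 (h q)).1
        linarith
    rw [avR_mul] at h1
    linarith
  · exact avR_mono U fun q => (le_abs_self _).trans (h q)

/-- **Bessel's inequality** for a finite orthogonal family. -/
theorem avR_bessel {θ : GK K ⧸ U → ℝ} {s : ℝ} (hθ : ∀ q, |θ q| ≤ s) {κ : Type} [Fintype κ]
    (e : κ → GK K ⧸ U → ℝ) (w : κ → ℝ) (hw : ∀ k, avR U (fun q => e k q * e k q) = w k)
    (ho : ∀ k k', k ≠ k' → avR U (fun q => e k q * e k' q) = 0) :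
    ∑ k, (avR U (fun q => θ q * e k q)) ^ 2 / w k ≤ s ^ 2 := by
  classical
  set a : κ → ℝ := fun k => avR U (fun q => θ q * e k q) with ha
  set g : GK K ⧸ U → ℝ := fun q => ∑ k, a k / w k * e k q with hg
  set Y : ℝ := ∑ k, (a k) ^ 2 / w k with hY
  have h1 : avR U (fun q => θ q * g q) = Y := by
    have e1 : (fun q => θ q * g q) = fun q => ∑ k, a k / w k * (θ q * e k q) := by
      funext q
      rw [hg]
      simp only
      rw [Finset.mul_sum]
      exact Finset.sum_congr rfl fun k _ => by ring
    rw [e1, avR_sum U Finset.univ (fun k q => a k / w k * (θ q * e k q)), hY]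
    refine Finset.sum_congr rfl fun k _ => ?_
    rw [avR_mul]
    change a k / w k * a k = _
    ring
  have h2 : avR U (fun q => g q * g q) = Y := by
    have e1 : (fun q => g q * g q) = fun q => ∑ k, ∑ k', a k / w k * (a k' / w k') *
        (e k q * e k' q) := by
      funext q
      rw [hg]
      simp only
      rw [Finset.sum_mul_sum]
      exact Finset.sum_congr rfl fun k _ => Finset.sum_congr rfl fun k' _ => by ring
    rw [e1, avR_sum U Finset.univ (fun k q => ∑ k', a k / w k * (a k' / w k') *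
        (e k q * e k' q)), hY]
    refine Finset.sum_congr rfl fun k _ => ?_
    rw [avR_sum U Finset.univ (fun k' q => a k / w k * (a k' / w k') * (e k q * e k' q)),
      Finset.sum_eq_single k]
    · rw [avR_mul, hw]
      by_cases h0 : w k = 0
      · rw [h0]
        simp
      · field_simp
    · intro k' _ hkk
      rw [avR_mul, ho k k' (Ne.symm hkk), mul_zero]
    · intro h
      exact absurd (Finset.mem_univ k) h
  have h3 : 0 ≤ avR U (fun q => (θ q - g q) ^ 2) := avR_nonneg U fun q => sq_nonneg _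
  have h4 : avR U (fun q => (θ q - g q) ^ 2) = avR U (fun q => θ q ^ 2) - Y := by
    have e1 : (fun q => (θ q - g q) ^ 2) = fun q => (θ q ^ 2 - 2 * (θ q * g q)) + g q * g q := by
      funext q
      ring
    rw [e1, avR_add U (fun q => θ q ^ 2 - 2 * (θ q * g q)) (fun q => g q * g q),
      avR_sub U (fun q => θ q ^ 2) (fun q => 2 * (θ q * g q)), avR_mul, h1, h2]
    ring
  have h5 : avR U (fun q => θ q ^ 2) ≤ s ^ 2 := by
    have h6 := avR_mono U (f := fun q => θ q ^ 2) (g := fun _ => s ^ 2 * 1) fun q => by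
      rw [mul_one]
      exact sq_le_sq' (by have := (abs_le.1 (hθ q)).1; linarith) (abs_le.1 (hθ q)).2
    rwa [avR_mul, avR_one, mul_one] at h6
  linarith

end av

variable {W : Type} [AddCommGroup W] [Module ℚ W]
  [FiniteDimensional ℚ W] {ρ : Representation ℚ (GK K) W} {P : LocalValue K} {N : ℕ}

/-- **The law of the averages.** -/
theorem avg_law (hu : Uniq P) (hP : IsPartOf P N ρ) (U : Subgroup (GK K)) [U.Normal]
    (hU : IsOpen (U : Set (GK K))) :
    ∃ θ : ℕ → GK K ⧸ U → ℝ, (∀ T q, |θ T q| ≤ ((N - Module.finrank ℚ W : ℕ) : ℝ)) ∧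
      (∀ T q g, θ T (g * q * g⁻¹) = θ T q) ∧
      (∀ (F : IntermediateField K (AlgebraicClosure K)) [NumberField F],
        (∀ u ∈ U, act K F u = 1) → ∀ (R : Finset (HeightOneSpectrum (𝓞 F)))
        (b : HeightOneSpectrum (𝓞 F) → ℝ), IsSystem P R b →
        Tendsto (fun T => average R b T -
          (rank ρ F + avR U (fun q => θ T q * fixn K F q.out))) atTop (𝓝 0)) ∧
      (∀ (R : Finset (HeightOneSpectrum (𝓞 K)))
        (b : HeightOneSpectrum (𝓞 K) → ℝ), IsSystem P R b →
        Tendsto (fun T => average R b T - (rank ρ ⊥ + avR U (fun q => θ T q))) atTop (𝓝 0)) ∧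
      ∀ (n : ℕ) (χ : Representation ℂ (GK K) (Fin n → ℂ)), (∀ u ∈ U, χ u = 1) →
        ∀ (R : Finset (HeightOneSpectrum (𝓞 K))) (b : HeightOneSpectrum (𝓞 K) → ℝ),
        Pool.Agent.W353.FB.IsTwistedSystem P χ R b → Tendsto (fun T => average R b T -
          (twistRank ρ χ + avR U (fun q => θ T q * (χ.character q.out).re))) atTop (𝓝 0) := by
  classical
  choose σ hσ using exists_isFrob (F := K)
  obtain ⟨t, ht, htv, hts⟩ := exists_t hP σ hσ
  obtain ⟨θ, h1, h2, h3, h4⟩ := law (mnN K) ht hP.1 (Nat.cast_nonneg _) σ hσ hts U hU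
  refine ⟨θ, h1, h2, ?_, ?_, ?_⟩
  · intro F _ hF R b hb
    obtain ⟨a, ha, -, hba, hcomp⟩ := exists_a hu htv hb
    have h6 := EN_FT σ hσ ht ha hcomp
    have h7 := LA_EN' R ha hba
    have h9 := (h7.add h6).add (h3 F hF)
    rw [add_zero, add_zero] at h9
    refine h9.congr fun T => ?_
    rw [average_eq]
    ring
  · intro R b hb
    have hbot : NumberField (⊥ : IntermediateField K (AlgebraicClosure K)) :=
      NumberField.of_module_finite K _
    obtain ⟨a, ha, -, hba, hcomp⟩ := exists_a hu htv hb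
    have h6 := EN_FT σ hσ ht ha hcomp
    have h7 := LA_EN' R ha hba
    have h9 := (h7.add h6).add (h3 ⊥ fun u _ => by
      refine Equiv.ext fun i => ?_
      have h10 := fixn_bot (K := K) u
      unfold fixn at h10
      have h11 : Nat.card ((⊥ : IntermediateField K (AlgebraicClosure K)) →ₐ[K]
          AlgebraicClosure K) = 1 := by
        rw [Nat.card_eq_fintype_card, AlgHom.card, IntermediateField.finrank_bot]
      have h12 := (Nat.card_eq_one_iff_unique.1 h11).1
      exact Subsingleton.elim _ _)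
    rw [add_zero, add_zero] at h9
    refine h9.congr fun T => ?_
    have e1 : (fun v => t v * (fixn K K (σ v) : ℝ)) = fun v => t v *
        (fixn K (⊥ : IntermediateField K (AlgebraicClosure K)) (σ v) : ℝ) := by
      funext v
      rw [fixn_self, fixn_bot]
    have e2 : (fun q : GK K ⧸ U => θ T q *
        (fixn K (⊥ : IntermediateField K (AlgebraicClosure K)) q.out : ℝ)) = fun q => θ T q := by
      funext q
      rw [fixn_bot, Nat.cast_one, mul_one]
    rw [average_eq, e1, e2]
    ring
  · intro n χ hχ R b hb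
    obtain ⟨hbd, -, hev⟩ := exists_tw hu ht htv σ hσ (χ := χ) ⟨U, hU, hχ⟩ hb
    have h6 := LA_EN' R hbd hev
    have h9 := h6.add (h4 ⟨n, χ⟩ hχ)
    rw [add_zero] at h9
    refine h9.congr fun T => ?_
    rw [average_eq]
    ring

theorem classFunctionLaw (hu : Uniq P) (hP : IsPartOf P N ρ) : ClassFunctionLaw P N ρ := by
  intro U _ hU
  obtain ⟨θ, h1, h2, h3, -, h5⟩ := avg_law hu hP U hU
  have hmean : ∀ (T : ℕ) (f : GK K → ℝ), (mean U fun g => θ T (QuotientGroup.mk g) * f g) =
      avR U (fun q => θ T q * f q.out) := by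
    intro T f
    unfold mean avR
    rw [div_eq_inv_mul]
    congr 1
    refine finsum_congr fun q => ?_
    change θ T (QuotientGroup.mk (Quotient.out q)) * f (Quotient.out q) =
      θ T q * f (Quotient.out q)
    rw [QuotientGroup.out_eq']
  refine ⟨fun T g => θ T (QuotientGroup.mk g), fun T g => h1 T _, fun T g u hu' => ?_,
    fun T g h => ?_, fun F _ hF R b hb => ?_, fun n χ hχ R b hb => ?_⟩
  · have e : (QuotientGroup.mk (g * u) : GK K ⧸ U) = QuotientGroup.mk g := by
      rw [QuotientGroup.eq]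
      have : (g * u)⁻¹ * g = u⁻¹ := by group
      rw [this]
      exact U.inv_mem hu'
    change θ T (QuotientGroup.mk (g * u)) = θ T (QuotientGroup.mk g)
    rw [e]
  · change θ T (QuotientGroup.mk (h * g * h⁻¹)) = θ T (QuotientGroup.mk g)
    rw [QuotientGroup.mk_mul, QuotientGroup.mk_mul, QuotientGroup.mk_inv, h2]
  · refine (h3 F (act_one_of_le F hF) R b hb).congr fun T => ?_
    rw [hmean T (fun g => (fixed F g : ℝ))]
    rfl
  · refine (h5 n χ hχ R b hb).congr fun T => ?_
    rw [hmean T (fun g => (χ.character g).re)]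

/-- the common kernel of the actions -/
theorem ker_pi_open {l : ℕ} (F : Fin l → IntermediateField K (AlgebraicClosure K))
    [∀ k, NumberField (F k)] :
    IsOpen ((MonoidHom.pi fun k => act K (F k)).ker : Set (GK K)) := by
  have e : ((MonoidHom.pi fun k => act K (F k)).ker : Set (GK K)) =
      ⋂ k, ((act K (F k)).ker : Set (GK K)) := by
    ext σ
    rw [SetLike.mem_coe, MonoidHom.mem_ker, Set.mem_iInter, funext_iff]
    rfl
  rw [e]
  exact isOpen_iInter_of_finite fun k => ker_act_open K (F k)

theorem averageRelations (hu : Uniq P) (hP : IsPartOf P N ρ) : AverageRelations P N ρ := by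
  classical
  intro l F _ c R b hb η hη
  set U : Subgroup (GK K) := (MonoidHom.pi fun k => act K (F k)).ker with hUdef
  have hopen : IsOpen (U : Set (GK K)) := ker_pi_open F
  have hfin : Finite (GK K ⧸ U) := Subgroup.quotient_finite_of_isOpen _ hopen
  have hact : ∀ k, ∀ u ∈ U, act K (F k) u = 1 := fun k u hu' =>
    congrFun ((MonoidHom.mem_ker).1 hu') k
  obtain ⟨θ, h1, -, h3, -, -⟩ := avg_law hu hP U hopen
  set s : ℝ := ((N - Module.finrank ℚ W : ℕ) : ℝ) with hs
  have hs0 : 0 ≤ s := Nat.cast_nonneg _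
  have hmean : meanAbs K (fun k => F k) c =
      avR U (fun q => |∑ k, c k * (fixn K (F k) q.out : ℝ)|) :=
    (avR_ker (MonoidHom.pi fun k => act K (F k)) fun g =>
      |∑ k, c k * (Nat.card {i : F k →ₐ[K] AlgebraicClosure K // g k i = i} : ℝ)|).symm
  set y : ℕ → ℝ := fun T => avR U (fun q => θ T q * ∑ k, c k * (fixn K (F k) q.out : ℝ)) with hy
  have hy' : ∀ T, y T = ∑ k, c k * avR U (fun q => θ T q * (fixn K (F k) q.out : ℝ)) := by
    intro T
    have e1 : (fun q : GK K ⧸ U => θ T q * ∑ k, c k * (fixn K (F k) q.out : ℝ)) =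
        fun q => ∑ k, c k * (θ T q * (fixn K (F k) q.out : ℝ)) := by
      funext q
      rw [Finset.mul_sum]
      exact Finset.sum_congr rfl fun k _ => by ring
    rw [hy]
    simp only
    rw [e1, avR_sum U Finset.univ (fun k q => c k * (θ T q * (fixn K (F k) q.out : ℝ)))]
    exact Finset.sum_congr rfl fun k _ => avR_mul U _ _
  have hlim : Tendsto (fun T => ∑ k, c k * (average (R k) (b k) T - rank ρ (F k)) - y T) atTop
      (𝓝 0) := by
    have h4 := tendsto_finsetSum (Finset.univ : Finset (Fin l)) fun k _ =>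
      (h3 (F k) (hact k) (R k) (b k) (hb k)).const_mul (c k)
    simp only [mul_zero, Finset.sum_const_zero] at h4
    refine h4.congr fun T => ?_
    rw [hy', ← Finset.sum_sub_distrib]
    exact Finset.sum_congr rfl fun k _ => by ring
  set B : ℝ := meanAbs K (fun k => F k) c with hB
  have hB0 : 0 ≤ B := by
    rw [hmean]
    exact avR_nonneg U fun q => abs_nonneg _
  have hyB : ∀ T, |y T| ≤ s * B := by
    intro T
    rw [hmean]
    exact avR_abs_le U (h1 T) _
  have hsq : B ^ 2 ≤ ∑ k, ∑ k', c k * c k' *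
      (Nat.card (MaximalSpectrum (F k ⊗[K] F k')) : ℝ) := by
    rw [hmean]
    refine (avR_sq_le U _).trans (le_of_eq ?_)
    have e1 : (fun q : GK K ⧸ U => |∑ k, c k * (fixn K (F k) q.out : ℝ)| ^ 2) =
        fun q => ∑ k, ∑ k', c k * c k' *
          ((fixn K (F k) q.out : ℝ) * (fixn K (F k') q.out : ℝ)) := by
      funext q
      rw [sq_abs, sq, Finset.sum_mul_sum]
      exact Finset.sum_congr rfl fun k _ => Finset.sum_congr rfl fun k' _ => by ring
    rw [e1, avR_sum U Finset.univ (fun k q => ∑ k', c k * c k' *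
          ((fixn K (F k) q.out : ℝ) * (fixn K (F k') q.out : ℝ)))]
    refine Finset.sum_congr rfl fun k _ => ?_
    rw [avR_sum U Finset.univ (fun k' q => c k * c k' *
          ((fixn K (F k) q.out : ℝ) * (fixn K (F k') q.out : ℝ)))]
    refine Finset.sum_congr rfl fun k' _ => ?_
    rw [avR_mul, mean_fix2 K (F k) (F k') U (hact k) (hact k')]
  obtain ⟨η', hη'0, hη'1, hη'2⟩ : ∃ η' : ℝ, 0 < η' ∧ η' ≤ η ∧
      2 * (s * B) * η' + η' ^ 2 ≤ η := by
    have hpos : 0 < 2 * (s * B) + 1 + η := by positivity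
    refine ⟨η / (2 * (s * B) + 1 + η), by positivity, ?_, ?_⟩
    · rw [div_le_iff₀ hpos]
      have : 0 ≤ η * (2 * (s * B) + η) := by positivity
      nlinarith
    · set d := 2 * (s * B) + 1 + η with hd
      have h5 : η / d ≤ 1 := by
        rw [div_le_one hpos, hd]
        have : 0 ≤ 2 * (s * B) := by positivity
        linarith
      have h6 : 0 < η / d := by positivity
      calc 2 * (s * B) * (η / d) + (η / d) ^ 2 ≤ 2 * (s * B) * (η / d) + 1 * (η / d) := by
            rw [sq]
            have := mul_le_mul_of_nonneg_right h5 h6.le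
            linarith
        _ = (2 * (s * B) + 1) * (η / d) := by ring
        _ ≤ d * (η / d) := by
            refine mul_le_mul_of_nonneg_right ?_ h6.le
            rw [hd]
            linarith
        _ = η := mul_div_cancel₀ _ hpos.ne'
  rw [Metric.tendsto_nhds] at hlim
  filter_upwards [hlim η' hη'0] with T hT
  rw [Real.dist_eq, sub_zero] at hT
  set x : ℝ := ∑ k, c k * (average (R k) (b k) T - rank ρ (F k)) with hx
  have h7 : |x| ≤ s * B + η' := by
    have e : x = y T + (x - y T) := by ring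
    rw [e]
    exact (abs_add_le _ _).trans (add_le_add (hyB T) hT.le)
  refine ⟨h7.trans (by linarith), ?_⟩
  have h8 : x ^ 2 ≤ (s * B + η') ^ 2 := by
    rw [← sq_abs x]
    exact pow_le_pow_left₀ (abs_nonneg _) h7 2
  have h9 : s ^ 2 * B ^ 2 ≤ s ^ 2 * ∑ k, ∑ k', c k * c k' *
      (Nat.card (MaximalSpectrum (F k ⊗[K] F k')) : ℝ) :=
    mul_le_mul_of_nonneg_left hsq (by positivity)
  nlinarith

theorem comparisonWithBase (hu : Uniq P) (hP : IsPartOf P N ρ) : ComparisonWithBase P N ρ := by
  classical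
  intro R₀ b₀ hb₀ η hη
  set s : ℝ := ((N - Module.finrank ℚ W : ℕ) : ℝ) with hs
  have hs0 : 0 ≤ s := Nat.cast_nonneg _
  have hder : ∀ (F : IntermediateField K (AlgebraicClosure K)) [NumberField F]
      (R : Finset (HeightOneSpectrum (𝓞 F))) (b : HeightOneSpectrum (𝓞 F) → ℝ), IsSystem P R b →
      ∀ᶠ T : ℕ in atTop, |(average R b T - rank ρ F) - (average R₀ b₀ T - rank ρ ⊥)| ≤
        2 * s * derangements K F + η := by
    intro F _ R b hb
    set U : Subgroup (GK K) := (act K F).ker with hUdef
    have hopen : IsOpen (U : Set (GK K)) := ker_act_open K F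
    have hfin : Finite (GK K ⧸ U) := Subgroup.quotient_finite_of_isOpen _ hopen
    obtain ⟨θ, h1, -, h3, h4, -⟩ := avg_law hu hP U hopen
    have h5 := (h3 F (fun u hu' => (MonoidHom.mem_ker).1 hu') R b hb).sub (h4 R₀ b₀ hb₀)
    rw [sub_zero, Metric.tendsto_nhds] at h5
    filter_upwards [h5 η hη] with T hT
    rw [Real.dist_eq, sub_zero] at hT
    have h6 : |avR U (fun q => θ T q * ((fixn K F q.out : ℝ) - 1))| ≤
        s * (2 * drg K F) := by
      have h7 := avR_abs_le U (h1 T) (fun q => (fixn K F q.out : ℝ) - 1)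
      rwa [mean_drg] at h7
    have h8 : avR U (fun q => θ T q * ((fixn K F q.out : ℝ) - 1)) =
        avR U (fun q => θ T q * (fixn K F q.out : ℝ)) - avR U (fun q => θ T q) := by
      rw [← avR_sub U (fun q => θ T q * (fixn K F q.out : ℝ)) (fun q => θ T q)]
      congr 1
      funext q
      ring
    have e : (average R b T - rank ρ F) - (average R₀ b₀ T - rank ρ ⊥) =
        avR U (fun q => θ T q * ((fixn K F q.out : ℝ) - 1)) +
        (average R b T - (rank ρ F + avR U (fun q => θ T q * (fixn K F q.out : ℝ))) -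
          (average R₀ b₀ T - (rank ρ ⊥ + avR U (fun q => θ T q)))) := by
      rw [h8]
      ring
    rw [e]
    refine (abs_add_le _ _).trans ?_
    have h9 : s * (2 * drg K F) = 2 * s * derangements K F := by
      change s * (2 * drg K F) = 2 * s * drg K F
      ring
    rw [← h9]
    exact add_le_add h6 hT.le
  refine ⟨hder, ?_, ?_⟩
  · intro p ζ α a hp hζ hα hdeg _ R b hb
    have h2 : derangements K K⟮α⟯ ≤ 1 / Module.finrank K K⟮ζ⟯ := drg_rad hp hζ hα hdeg
    filter_upwards [hder K⟮α⟯ R b hb] with T hT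
    refine hT.trans ?_
    have h3 := mul_le_mul_of_nonneg_left h2 (by positivity : 0 ≤ 2 * s)
    rw [mul_one_div] at h3
    linarith
  · intro l F _ R b _ hind hb
    set U : Subgroup (GK K) := (MonoidHom.pi fun k => act K (F k)).ker with hUdef
    have hopen : IsOpen (U : Set (GK K)) := ker_pi_open F
    have hfin : Finite (GK K ⧸ U) := Subgroup.quotient_finite_of_isOpen _ hopen
    have hact : ∀ k, ∀ u ∈ U, act K (F k) u = 1 := fun k u hu' =>
      congrFun ((MonoidHom.mem_ker).1 hu') k
    obtain ⟨θ, h1, -, h3, h4, -⟩ := avg_law hu hP U hopen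
    set e : Fin l → GK K ⧸ U → ℝ := fun k q => (fixn K (F k) q.out : ℝ) - 1 with he
    set w : Fin l → ℝ := fun k => (Nat.card (MaximalSpectrum (F k ⊗[K] F k)) : ℝ) - 1 with hw
    have hee : ∀ k k', avR U (fun q => e k q * e k' q) =
        (Nat.card (MaximalSpectrum (F k ⊗[K] F k')) : ℝ) - 1 := by
      intro k k'
      have e1 : (fun q => e k q * e k' q) = fun q =>
          (((fixn K (F k) q.out : ℝ) * (fixn K (F k') q.out : ℝ) - (fixn K (F k) q.out : ℝ)) -
            (fixn K (F k') q.out : ℝ)) + 1 := by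
        funext q
        rw [he]
        ring
      rw [e1, avR_add U (fun q => ((fixn K (F k) q.out : ℝ) * (fixn K (F k') q.out : ℝ) -
          (fixn K (F k) q.out : ℝ)) - (fixn K (F k') q.out : ℝ)) (fun _ => 1),
        avR_sub U (fun q => (fixn K (F k) q.out : ℝ) * (fixn K (F k') q.out : ℝ) -
          (fixn K (F k) q.out : ℝ)) (fun q => (fixn K (F k') q.out : ℝ)),
        avR_sub U (fun q => (fixn K (F k) q.out : ℝ) * (fixn K (F k') q.out : ℝ))
          (fun q => (fixn K (F k) q.out : ℝ)), mean_fix2 K (F k) (F k') U (hact k) (hact k'),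
        mean_fix1 K (F k) U (hact k), mean_fix1 K (F k') U (hact k'), avR_one]
      ring
    have hbes : ∀ T, ∑ k, (avR U (fun q => θ T q * e k q)) ^ 2 / w k ≤ s ^ 2 := fun T =>
      avR_bessel U (h1 T) e w (fun k => hee k k) fun k k' hkk => by
        rw [hee, hind k k' hkk, Nat.cast_one, sub_self]
    set a : Fin l → ℕ → ℝ := fun k T => avR U (fun q => θ T q * e k q) with ha
    have hab : ∀ k T, |a k T| ≤ s * avR U (fun q => |e k q|) := fun k T =>
      avR_abs_le U (h1 T) (e k)
    set x : Fin l → ℕ → ℝ := fun k T =>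
      (average (R k) (b k) T - rank ρ (F k)) - (average R₀ b₀ T - rank ρ ⊥) with hx
    have hxa : ∀ k, Tendsto (fun T => x k T - a k T) atTop (𝓝 0) := by
      intro k
      have h5 := (h3 (F k) (hact k) (R k) (b k) (hb k)).sub (h4 R₀ b₀ hb₀)
      rw [sub_zero] at h5
      refine h5.congr fun T => ?_
      have h8 : a k T = avR U (fun q => θ T q * (fixn K (F k) q.out : ℝ)) -
          avR U (fun q => θ T q) := by
        rw [ha]
        simp only
        rw [← avR_sub U (fun q => θ T q * (fixn K (F k) q.out : ℝ)) (fun q => θ T q)]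
        congr 1
        funext q
        rw [he]
        ring
      rw [h8, hx]
      ring
    have hsqd : ∀ k, Tendsto (fun T => (x k T) ^ 2 - (a k T) ^ 2) atTop (𝓝 0) := by
      intro k
      have h5 : Tendsto (fun T => (x k T - a k T) ^ 2 +
          2 * (s * avR U (fun q => |e k q|)) * |x k T - a k T|) atTop (𝓝 0) := by
        have h6 := ((hxa k).pow 2).add (((hxa k).abs).const_mul
          (2 * (s * avR U (fun q => |e k q|))))
        simpa using h6
      refine squeeze_zero_norm (fun T => ?_) h5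
      rw [Real.norm_eq_abs]
      have e1 : (x k T) ^ 2 - (a k T) ^ 2 =
          (x k T - a k T) ^ 2 + 2 * a k T * (x k T - a k T) := by ring
      rw [e1]
      refine (abs_add_le _ _).trans ?_
      rw [abs_of_nonneg (sq_nonneg (x k T - a k T)), abs_mul, abs_mul, abs_two]
      have h7 := mul_le_mul_of_nonneg_right (hab k T) (abs_nonneg (x k T - a k T))
      linarith
    have hsum : Tendsto (fun T => ∑ k, (x k T) ^ 2 / w k - ∑ k, (a k T) ^ 2 / w k) atTop
        (𝓝 0) := by
      have h5 := tendsto_finsetSum (Finset.univ : Finset (Fin l)) fun k _ =>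
        (hsqd k).div_const (w k)
      simp only [zero_div, Finset.sum_const_zero] at h5
      refine h5.congr fun T => ?_
      rw [← Finset.sum_sub_distrib]
      exact Finset.sum_congr rfl fun k _ => by rw [sub_div]
    rw [Metric.tendsto_nhds] at hsum
    filter_upwards [hsum η hη] with T hT
    rw [Real.dist_eq, sub_zero] at hT
    have h6 := hbes T
    have h7 := (abs_lt.1 hT).2
    change ∑ k, (x k T) ^ 2 / w k ≤ s ^ 2 + η
    change ∑ k, (a k T) ^ 2 / w k ≤ s ^ 2 at h6
    linarith

end

end Pool.Agent.K3h18.FB
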